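import Pool.Agent.TH29.GQ.Scale

/-! Small shapes are seen at exactly the scale `log p` with positive upper density. -/

set_option autoImplicit false

open Finset

namespace Pool.Agent.TH29.GQ

open Pool.Agent.H361R2.PP

open Classical in
/-- the property `Q` holds for a set of indices of primes of positive upper density -/
def UpperDense (Q : ℕ → Prop) : Prop := ∃ δ : ℝ, 0 < δ ∧ ∀ N₀ : ℕ, ∃ N : ℕ, N₀ ≤ N ∧
  δ * N ≤ (((range N).filter (fun l => Q l)).card : ℝ)

theorem UpperDense.mono {Q Q' : ℕ → Prop} (h : UpperDense Q) (hQ : ∀ l, Q l → Q' l) :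
    UpperDense Q' := by
  classical
  obtain ⟨δ, h0, h1⟩ := h
  refine ⟨δ, h0, fun N₀ => ?_⟩
  obtain ⟨N, hN, h2⟩ := h1 N₀
  refine ⟨N, hN, h2.trans (Nat.cast_le.2 (card_le_card ?_))⟩
  intro l hl
  rw [mem_filter] at hl ⊢
  exact ⟨hl.1, hQ l hl.2⟩

theorem exact_card (hM : MasterT) (hTra : Tra) (b : ℕ) (hb0 : 0 < b) : ∃ c : ℝ, 0 < c ∧
    ∀ F : Finset ℝ, (0 : ℝ) ∈ F → F.card = b → (∀ v ∈ F, |v| ≤ c) → ∀ (m : ℕ) (ε : ℝ), 0 < ε →
      UpperDense (fun l => LooksF F m (2 * c) ε (Real.log (P l)) (P l)) := by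
  classical
  by_contra hcon
  push Not at hcon
  have hc0 : ∀ i : ℕ, (0 : ℝ) < 1 / ((i : ℝ) + 1) := fun i => by positivity
  choose F hF0 hFb hFc m ε hε hbad using fun i : ℕ => hcon (1 / ((i : ℝ) + 1)) (hc0 i)
  choose v hv hv1 hv2 hv0 using fun i => exists_enum (F i) (hF0 i) b (hFb i) hb0
  choose σ hσ hσ' using fun i => exists_sep (v i) (hv i)
  have hnxt : ∀ i : ℕ, ∃ i' : ℕ, 1 / ((i' : ℝ) + 1) ≤
      min (1 / ((i : ℝ) + 1) / 2) (min (ε i / 16) (σ i / 12)) := by
    intro i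
    have h1 : 0 < min (1 / ((i : ℝ) + 1) / 2) (min (ε i / 16) (σ i / 12)) :=
      lt_min (by have := hc0 i; linarith) (lt_min (by have := hε i; linarith)
        (by have := hσ i; linarith))
    obtain ⟨i', hi'⟩ := exists_nat_one_div_lt h1
    exact ⟨i', hi'.le⟩
  choose nxt hnxt using hnxt
  set idx : ℕ → ℕ := fun j => Nat.rec 0 (fun _ i => nxt i) j with hidx
  have hidxs : ∀ j, idx (j + 1) = nxt (idx j) := fun j => rfl
  obtain ⟨c, hcd⟩ : ∃ c : ℕ → ℝ, c = fun j => 1 / ((idx j : ℝ) + 1) := ⟨_, rfl⟩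
  have hcj : ∀ j, c j = 1 / ((idx j : ℝ) + 1) := fun j => by rw [hcd]
  have hcpos : ∀ j, 0 < c j := fun j => by rw [hcj]; exact hc0 _
  have hs1 : ∀ j, c (j + 1) ≤ c j / 2 := fun j => by
    rw [hcj, hcj, hidxs]
    exact (hnxt (idx j)).trans (min_le_left _ _)
  have hs2 : ∀ j, c (j + 1) ≤ ε (idx j) / 16 := fun j => by
    rw [hcj, hidxs]
    exact (hnxt (idx j)).trans ((min_le_right _ _).trans (min_le_left _ _))
  have hs3 : ∀ j, c (j + 1) ≤ σ (idx j) / 12 := fun j => by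
    rw [hcj, hidxs]
    exact (hnxt (idx j)).trans ((min_le_right _ _).trans (min_le_right _ _))
  have hmono : ∀ i d, c (i + d) ≤ c i := by
    intro i d
    induction d with
    | zero => exact le_rfl
    | succ d ih =>
      have h1 := hs1 (i + d)
      have h2 := hcpos (i + d)
      rw [← Nat.add_assoc]
      linarith
  obtain ⟨h, hh0, hh⟩ := exists_levels b hb0
  obtain ⟨M, hMd⟩ : ∃ M : ℕ, M = ∑ j ∈ range h, m (idx j) := ⟨_, rfl⟩
  have hmM : ∀ j < h, m (idx j) ≤ M := fun j hj => by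
    rw [hMd]
    exact single_le_sum (f := fun j => m (idx j)) (fun _ _ => Nat.zero_le _) (mem_range.2 hj)
  obtain ⟨δ, hδ, N₀, hN₀⟩ := looks_of hM hTra M hh (fun j a => v (idx j) a) ⟨0, hb0⟩
    (fun j => hv0 (idx j)) c (fun j => 2 * c (j + 1)) (fun j => ε (idx j)) (fun j => 2 * c j)
    (fun j a => by
      rw [hcj]
      exact hFc (idx j) _ (hv1 (idx j) a))
    (fun j => by
      have := hs1 (j + 1)
      linarith)
    (fun j => by have := hcpos (j + 1); linarith) (fun j => hε _)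
    (fun j => by have := hcpos j; linarith)
    (fun j => by have := hs2 j; linarith)
    (fun i j hij a a' haa => by
      obtain ⟨d, rfl⟩ : ∃ d, j = i + 1 + d := ⟨j - (i + 1), by omega⟩
      have h1 := hmono (i + 1) d
      have h2 := hs3 i
      have h3 := hσ' (idx i) a a' haa
      linarith)
  -- each shape is rare
  have hrare : ∀ j, ∃ N₁ : ℕ, ∀ N, N₁ ≤ N → (((range N).filter (fun l =>
      LooksF (F (idx j)) (m (idx j)) (2 * (1 / ((idx j : ℝ) + 1))) (ε (idx j))
        (Real.log (P l)) (P l))).card : ℝ) < δ / (h + 1) * N := by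
    intro j
    have h1 := hbad (idx j)
    unfold UpperDense at h1
    push Not at h1
    exact h1 (δ / (h + 1)) (by positivity)
  choose N₁ hN₁ using hrare
  obtain ⟨N, hNd⟩ : ∃ N : ℕ, N = N₀ + ∑ j ∈ range h, N₁ j + 1 := ⟨_, rfl⟩
  have hNpos : (0 : ℝ) < N := by
    rw [hNd]
    positivity
  have h1 := hN₀ N (by omega)
  have hsub : (range N).filter (fun l => Seen h M (fun j => 2 * c j) (fun j => ε (idx j))
      (fun j a => v (idx j) a) ⟨0, hb0⟩ (P l)) ⊆ (range h).biUnion (fun j => (range N).filter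
        (fun l => LooksF (F (idx j)) (m (idx j)) (2 * (1 / ((idx j : ℝ) + 1))) (ε (idx j))
          (Real.log (P l)) (P l))) := by
    intro l hl
    rw [mem_filter] at hl
    obtain ⟨hlN, j, hj, hlook⟩ := hl
    rw [mem_biUnion]
    refine ⟨j, mem_range.2 hj, mem_filter.2 ⟨hlN, ?_⟩⟩
    refine looksF_of (hv (idx j)) (hv1 (idx j)) (hv2 (idx j)) (hv0 (idx j)) (hmM j hj) ?_ hlook
    show 2 * (1 / ((idx j : ℝ) + 1)) * Real.log (P l) ≤ 2 * c j * Real.log (P l)
    rw [hcj]
  have h2 := (card_le_card hsub).trans card_biUnion_le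
  have h3 : δ * N ≤ ∑ j ∈ range h, (((range N).filter (fun l =>
      LooksF (F (idx j)) (m (idx j)) (2 * (1 / ((idx j : ℝ) + 1))) (ε (idx j))
        (Real.log (P l)) (P l))).card : ℝ) := by
    refine h1.trans ?_
    exact_mod_cast h2
  have h4 : ∑ j ∈ range h, (((range N).filter (fun l =>
      LooksF (F (idx j)) (m (idx j)) (2 * (1 / ((idx j : ℝ) + 1))) (ε (idx j))
        (Real.log (P l)) (P l))).card : ℝ) ≤ ∑ _j ∈ range h, δ / (h + 1) * N := by
    refine sum_le_sum fun j hj => (hN₁ j N ?_).le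
    have := single_le_sum (f := N₁) (fun _ _ => Nat.zero_le _) hj
    omega
  rw [sum_const, card_range, nsmul_eq_mul] at h4
  have h5 : (h : ℝ) * (δ / (h + 1) * N) = δ * N * (h / (h + 1)) := by
    field_simp
  have h6 : (h : ℝ) / (h + 1) < 1 := by
    rw [div_lt_one (by positivity)]
    linarith
  have h7 : δ * N * ((h : ℝ) / (h + 1)) < δ * N * 1 :=
    mul_lt_mul_of_pos_left h6 (mul_pos hδ hNpos)
  linarith

theorem exact_of (hM : MasterT) (hTra : Tra) (k : ℕ) : ∃ c : ℝ, 0 < c ∧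
    ∀ F : Finset ℝ, (0 : ℝ) ∈ F → F.card ≤ k → (∀ v ∈ F, |v| ≤ c) → ∀ (m : ℕ) (ε : ℝ), 0 < ε →
      UpperDense (fun l => LooksF F m (2 * c) ε (Real.log (P l)) (P l)) := by
  have hex : ∀ b : ℕ, ∃ c : ℝ, 0 < c ∧ (0 < b → ∀ F : Finset ℝ, (0 : ℝ) ∈ F → F.card = b →
      (∀ v ∈ F, |v| ≤ c) → ∀ (m : ℕ) (ε : ℝ), 0 < ε →
      UpperDense (fun l => LooksF F m (2 * c) ε (Real.log (P l)) (P l))) := by
    intro b
    rcases Nat.eq_zero_or_pos b with h | h
    · exact ⟨1, one_pos, fun h1 => absurd h1 (by omega)⟩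
    · obtain ⟨c, h1, h2⟩ := exact_card hM hTra b h
      exact ⟨c, h1, fun _ => h2⟩
  choose c hc hc' using hex
  obtain ⟨d, hd, hd'⟩ := exists_small c hc (k + 1)
  refine ⟨d, hd, fun F hF hFk hFd m ε hε => ?_⟩
  have h1 := hd' F.card (by omega)
  refine (hc' F.card (card_pos.2 ⟨0, hF⟩) F hF rfl (fun v hv => (hFd v hv).trans h1) m ε hε).mono ?_
  intro l hl
  have hlog : 0 ≤ Real.log (P l) := by
    apply Real.log_nonneg
    exact_mod_cast (Nat.prime_nth_prime l).one_lt.le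
  refine ⟨fun q' hq' hqq => hl.1 q' hq' (hqq.trans ?_), hl.2⟩
  exact mul_le_mul_of_nonneg_right (by linarith) hlog

/-- the normalised gap after the prime with index `l` -/
noncomputable def ng (l : ℕ) : ℝ := ((P (l + 1) : ℝ) - P l) / Real.log (P l)

theorem gaps_of (hM : MasterT) (hTra : Tra) : ∃ c : ℝ, 0 < c ∧ ∀ x : ℝ, 0 ≤ x → x ≤ c →
    ∀ ε : ℝ, 0 < ε → UpperDense (fun l => |ng l - x| ≤ ε) := by
  obtain ⟨c, hc, hmain⟩ := exact_of hM hTra 2
  have key : ∀ x : ℝ, 0 < x → x ≤ c → ∀ ε : ℝ, 0 < ε → UpperDense (fun l => |ng l - x| ≤ ε) := by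
    intro x hx hxc ε hε
    obtain ⟨ε', hε'd⟩ : ∃ ε' : ℝ, ε' = min ε (x / 2) := ⟨_, rfl⟩
    have hε'0 : 0 < ε' := by rw [hε'd]; exact lt_min hε (by linarith)
    have hε'1 : ε' ≤ ε := by rw [hε'd]; exact min_le_left _ _
    have hε'2 : ε' ≤ x / 2 := by rw [hε'd]; exact min_le_right _ _
    refine (hmain {0, x} (by simp) Finset.card_le_two (by
      intro v hv
      rw [mem_insert, mem_singleton] at hv
      rcases hv with rfl | rfl
      · rw [abs_zero]; exact hc.le
      · rw [abs_of_pos hx]; exact hxc) 1 ε' hε'0).mono ?_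
    intro l hl
    have hpr : ∀ i, (P i).Prime := fun i => Nat.prime_nth_prime i
    have hlog : 0 < Real.log (P l) := by
      apply Real.log_pos
      exact_mod_cast (hpr l).one_lt
    set H := Real.log (P l) with hH
    have h1 := hl.2 x (by simp)
    have hne : {q' : ℕ | q'.Prime ∧ |(q' : ℝ) - P l - x * H| ≤ ε' * H}.Nonempty := by
      rw [← Set.ncard_pos (Set.finite_of_ncard_pos (by omega))]
      omega
    obtain ⟨q', hq', hqq⟩ := hne
    have hqq' := abs_le.1 hqq
    have hxH : ε' * H ≤ x / 2 * H := mul_le_mul_of_nonneg_right hε'2 hlog.le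
    have hxH0 : 0 < x * H := mul_pos hx hlog
    have hlt : (P l : ℝ) < q' := by nlinarith [hqq'.1]
    have hlt' : P l < q' := by exact_mod_cast hlt
    have hnext : P (l + 1) ≤ q' := by
      have h2 : l < Nat.count Nat.Prime q' := by
        rw [← Nat.nth_lt_nth Nat.infinite_setOfPred_prime, Nat.nth_count hq']
        exact hlt'
      have h3 : Nat.nth Nat.Prime (l + 1) ≤ Nat.nth Nat.Prime (Nat.count Nat.Prime q') :=
        Nat.nth_monotone Nat.infinite_setOfPred_prime h2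
      rw [Nat.nth_count hq'] at h3
      exact h3
    have hPlt : P l < P (l + 1) := Nat.nth_strictMono Nat.infinite_setOfPred_prime (Nat.lt_succ_self l)
    have hPlt' : (P l : ℝ) < P (l + 1) := by exact_mod_cast hPlt
    have hnext' : (P (l + 1) : ℝ) ≤ q' := by exact_mod_cast hnext
    have hcH : x * H ≤ c * H := mul_le_mul_of_nonneg_right hxc hlog.le
    obtain ⟨v, hv, hv0, hv1⟩ := hl.1 (P (l + 1)) (hpr _) (by
      rw [abs_of_pos (by linarith)]
      nlinarith [hqq'.2])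
    rw [mem_insert, mem_singleton] at hv
    have hvx : v = x := hv.resolve_left (hv0 hPlt)
    rw [hvx] at hv1
    have h4 : ng l - x = ((P (l + 1) : ℝ) - P l - x * H) / H := by
      unfold ng
      rw [← hH]
      field_simp
    show |ng l - x| ≤ ε
    rw [h4, abs_div, abs_of_pos hlog, div_le_iff₀ hlog]
    exact hv1.trans (mul_le_mul_of_nonneg_right hε'1 hlog.le)
  refine ⟨c, hc, fun x hx hxc ε hε => ?_⟩
  rcases hx.lt_or_eq with h | h
  · exact key x h hxc ε hε
  · have h1 : 0 < min c (ε / 2) := lt_min hc (by linarith)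
    refine (key (min c (ε / 2)) h1 (min_le_left _ _) (ε / 2) (by linarith)).mono ?_
    intro l hl
    have h2 := abs_le.1 hl
    have h3 : min c (ε / 2) ≤ ε / 2 := min_le_right _ _
    rw [← h, abs_le]
    constructor <;> linarith

end Pool.Agent.TH29.GQ
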