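import Pool.Agent.H361R2.PP.Asm2
import Pool.Agent.H403R2.PP.Tra
import Pool.Agent.TH29.GQ.Exact

/-! The theorems on shapes with all inputs. -/

set_option autoImplicit false

open Finset

namespace Pool.Agent.TH29.GQ

open Pool.Agent.H361R2.PP

theorem exact_fin (k : ℕ) : ∃ c : ℝ, 0 < c ∧
    ∀ F : Finset ℝ, (0 : ℝ) ∈ F → F.card ≤ k → (∀ v ∈ F, |v| ≤ c) → ∀ (m : ℕ) (ε : ℝ), 0 < ε →
      UpperDense (fun l => LooksF F m (2 * c) ε (Real.log (P l)) (P l)) :=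
  exact_of masterT Pool.Agent.H403R2.PP.tra k

theorem gaps_fin : ∃ c : ℝ, 0 < c ∧ ∀ x : ℝ, 0 ≤ x → x ≤ c →
    ∀ ε : ℝ, 0 < ε → UpperDense (fun l => |ng l - x| ≤ ε) :=
  gaps_of masterT Pool.Agent.H403R2.PP.tra

open Classical in
theorem scale_fin (F : Finset ℝ) (hF : (0 : ℝ) ∈ F) (m : ℕ) (R ε M : ℝ) (hε : 0 < ε) :
    ∃ M' c : ℝ, 0 < c ∧ ∃ N₀ : ℕ, ∀ N : ℕ, N₀ ≤ N → c * N ≤ (((range N).filter (fun l =>
      ∃ H : ℝ, M * Real.log (P l) ≤ H ∧ H ≤ M' * Real.log (P l) ∧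
        LooksF F m R ε H (P l))).card : ℝ) :=
  scale_of masterT Pool.Agent.H403R2.PP.tra F hF m R ε M hε

end Pool.Agent.TH29.GQ
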