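import Pool.Agent.TH29.GQ.Shape

/-! Every finite shape is seen from a positive proportion of the primes, at some scale. -/

set_option autoImplicit false

open Finset

namespace Pool.Agent.TH29.GQ

open Pool.Agent.H361R2.PP

/-- At the scale `H` the primes seen from `q` form the set `F`: every prime `q'` with
`|q' - q| ≤ R H` is within `ε H` of some `q + v H`, `v ∈ F`, with `v ≠ 0` if `q' > q`, and at least
`m` primes are within `ε H` of each `q + v H`. -/
def LooksF (F : Finset ℝ) (m : ℕ) (R ε H : ℝ) (q : ℕ) : Prop :=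
  (∀ q' : ℕ, q'.Prime → |(q' : ℝ) - q| ≤ R * H →
    ∃ v ∈ F, (q < q' → v ≠ 0) ∧ |(q' : ℝ) - q - v * H| ≤ ε * H) ∧
  ∀ v ∈ F, m ≤ {q' : ℕ | q'.Prime ∧ |(q' : ℝ) - q - v * H| ≤ ε * H}.ncard

/-- an enumeration of a finite set beginning with `0` -/
theorem exists_enum (F : Finset ℝ) (hF : (0 : ℝ) ∈ F) (b : ℕ) (hb : F.card = b) (hb0 : 0 < b) :
    ∃ v : Fin b → ℝ, Function.Injective v ∧ (∀ a, v a ∈ F) ∧ (∀ x ∈ F, ∃ a, v a = x) ∧
      v ⟨0, hb0⟩ = 0 := by
  subst hb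
  set e : Fin F.card ≃ F := F.equivFin.symm with he
  set s : Equiv.Perm (Fin F.card) := Equiv.swap ⟨0, hb0⟩ (e.symm ⟨0, hF⟩) with hs
  refine ⟨fun a => (e (s a) : ℝ), ?_, fun a => (e (s a)).2, fun x hx => ?_, ?_⟩
  · intro a a' h
    exact s.injective (e.injective (Subtype.ext h))
  · exact ⟨s.symm (e.symm ⟨x, hx⟩), by simp⟩
  · simp [hs, Equiv.swap_apply_left]

theorem exists_sep {b : ℕ} (v : Fin b → ℝ) (hv : Function.Injective v) :
    ∃ σ : ℝ, 0 < σ ∧ ∀ a a', a ≠ a' → σ ≤ |v a - v a'| := by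
  obtain ⟨S, hS⟩ : ∃ S : ℝ, S = ∑ x : Fin b × Fin b, 1 / |v x.1 - v x.2| := ⟨_, rfl⟩
  have hS0 : 0 ≤ S := by
    rw [hS]
    exact sum_nonneg fun _ _ => by positivity
  refine ⟨1 / (S + 1), by positivity, fun a a' h => ?_⟩
  have h1 : 1 / |v a - v a'| ≤ S := by
    rw [hS]
    exact single_le_sum (f := fun x : Fin b × Fin b => 1 / |v x.1 - v x.2|)
      (fun _ _ => by positivity) (mem_univ (a, a'))
  have h2 : 0 < |v a - v a'| := abs_pos.2 (sub_ne_zero.2 fun h3 => h (hv h3))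
  rw [div_le_iff₀ (by linarith)]
  rw [div_le_iff₀ h2] at h1
  linarith

theorem looksF_of {b : ℕ} {F : Finset ℝ} {v : Fin b → ℝ} {a0 : Fin b} (hv : Function.Injective v)
    (hv1 : ∀ a, v a ∈ F) (hv2 : ∀ x ∈ F, ∃ a, v a = x) (hv0 : v a0 = 0) {m m' : ℕ} (hm : m ≤ m')
    {R R' ε H : ℝ} {q : ℕ} (hR : R * H ≤ R' * H) (h : Looks m' R' ε v a0 H q) :
    LooksF F m R ε H q := by
  refine ⟨fun q' hq' hqq => ?_, fun x hx => ?_⟩
  · obtain ⟨a, h1, h2⟩ := h.1 q' hq' (hqq.trans hR)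
    refine ⟨v a, hv1 a, fun hlt h0 => h1 hlt (hv (h0.trans hv0.symm)), h2⟩
  · obtain ⟨a, rfl⟩ := hv2 x hx
    exact hm.trans (h.2 a)

theorem looks_scale {b : ℕ} {v : Fin b → ℝ} {a0 : Fin b} {m : ℕ} {R ε t H : ℝ} {q : ℕ}
    (h : Looks m (R * t) (ε * t) (fun a => t * v a) a0 H q) : Looks m R ε v a0 (t * H) q := by
  have e1 : ∀ x : ℝ, t * x * H = x * (t * H) := fun x => by ring
  have e2 : ε * t * H = ε * (t * H) := by ring
  have e3 : R * t * H = R * (t * H) := by ring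
  unfold Looks at h ⊢
  simp only [e1, e2, e3] at h
  exact h

open Classical in
theorem scale_of (hM : MasterT) (hTra : Tra) (F : Finset ℝ) (hF : (0 : ℝ) ∈ F) (m : ℕ)
    (R ε M : ℝ) (hε : 0 < ε) :
    ∃ M' c : ℝ, 0 < c ∧ ∃ N₀ : ℕ, ∀ N : ℕ, N₀ ≤ N → c * N ≤ (((range N).filter (fun l =>
      ∃ H : ℝ, M * Real.log (P l) ≤ H ∧ H ≤ M' * Real.log (P l) ∧
        LooksF F m R ε H (P l))).card : ℝ) := by
  have hb0 : 0 < F.card := card_pos.2 ⟨0, hF⟩
  obtain ⟨v, hv, hv1, hv2, hv0⟩ := exists_enum F hF F.card rfl hb0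
  obtain ⟨σ, hσ, hσ'⟩ := exists_sep v hv
  obtain ⟨h, hh0, hh⟩ := exists_levels F.card hb0
  obtain ⟨Dv, hDvd⟩ : ∃ Dv : ℝ, Dv = 1 + ∑ a, |v a| := ⟨_, rfl⟩
  have hDv : ∀ a, |v a| ≤ Dv := fun a => by
    rw [hDvd]
    have := single_le_sum (f := fun a => |v a|) (fun _ _ => abs_nonneg _) (mem_univ a)
    linarith
  have hDv0 : 0 < Dv := by
    rw [hDvd]
    have : 0 ≤ ∑ a, |v a| := sum_nonneg fun _ _ => abs_nonneg _
    linarith
  obtain ⟨R1, hR1d⟩ : ∃ R1 : ℝ, R1 = max R 1 := ⟨_, rfl⟩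
  have hR1 : 0 < R1 := by rw [hR1d]; exact lt_of_lt_of_le one_pos (le_max_right _ _)
  have hRR1 : R ≤ R1 := by rw [hR1d]; exact le_max_left _ _
  obtain ⟨M1, hM1d⟩ : ∃ M1 : ℝ, M1 = max M 1 := ⟨_, rfl⟩
  have hM1 : 0 < M1 := by rw [hM1d]; exact lt_of_lt_of_le one_pos (le_max_right _ _)
  have hMM1 : M ≤ M1 := by rw [hM1d]; exact le_max_left _ _
  obtain ⟨B, hB⟩ : ∃ B : ℝ, B = 2 + 16 * Dv / ε + (2 * R1 + 8 * Dv) / σ := ⟨_, rfl⟩
  have hq1 : 0 ≤ 16 * Dv / ε := by positivity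
  have hq2 : 0 ≤ (2 * R1 + 8 * Dv) / σ := by positivity
  have hB2 : 2 ≤ B := by linarith
  have hB0 : 0 < B := by linarith
  have hBε : 16 * Dv ≤ ε * B := by
    have h1 : 16 * Dv / ε ≤ B := by linarith
    rw [div_le_iff₀ hε] at h1
    linarith
  have hBσ : 2 * R1 + 8 * Dv ≤ σ * B := by
    have h1 : (2 * R1 + 8 * Dv) / σ ≤ B := by linarith
    rw [div_le_iff₀ hσ] at h1
    linarith
  set t : ℕ → ℝ := fun j => M1 * B ^ h / B ^ j with ht
  have ht0 : ∀ j, 0 < t j := fun j => by simp only [ht]; positivity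
  have hts : ∀ j, t (j + 1) = t j / B := fun j => by
    simp only [ht]
    rw [pow_succ]
    field_simp
  have htl : ∀ i d, t (i + 1 + d) ≤ t i / B := by
    intro i d
    induction d with
    | zero => exact (hts i).le
    | succ d ih =>
      rw [← Nat.add_assoc, hts]
      refine le_trans ?_ ih
      rw [div_le_iff₀ hB0]
      have := ht0 (i + 1 + d)
      nlinarith
  obtain ⟨c, hc, N₀, hN₀⟩ := looks_of hM hTra m hh (fun j a => t j * v a) ⟨0, hb0⟩
    (fun j => by rw [hv0, mul_zero]) (fun j => Dv * t j) (fun j => 2 * Dv * (t j / B))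
    (fun j => ε * t j) (fun j => R1 * t j)
    (fun j a => by
      rw [abs_mul, abs_of_pos (ht0 j), mul_comm]
      exact mul_le_mul_of_nonneg_right (hDv a) (ht0 j).le)
    (fun j => by
      rw [← hts j]
      have h1 : t (j + 1) / B ≤ t (j + 1) / 2 :=
        div_le_div_of_nonneg_left (ht0 _).le (by norm_num) hB2
      have h2 := mul_le_mul_of_nonneg_left h1 (show 0 ≤ 2 * Dv by linarith)
      linarith)
    (fun j => by
      have := ht0 j
      positivity)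
    (fun j => mul_pos hε (ht0 j)) (fun j => mul_pos hR1 (ht0 j))
    (fun j => by
      have h1 : 8 * (2 * Dv * (t j / B)) = (16 * Dv) * t j / B := by ring
      rw [h1, div_le_iff₀ hB0]
      have := mul_le_mul_of_nonneg_right hBε (ht0 j).le
      linarith)
    (fun i j hij a a' haa => by
      obtain ⟨d, rfl⟩ : ∃ d, j = i + 1 + d := ⟨j - (i + 1), by omega⟩
      have h1 := htl i d
      rw [← mul_sub, abs_mul, abs_of_pos (ht0 i)]
      have h2 : t i * σ ≤ t i * |v a - v a'| := mul_le_mul_of_nonneg_left (hσ' a a' haa) (ht0 i).le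
      refine le_trans ?_ h2
      have h3 : 2 * (R1 * t (i + 1 + d)) ≤ 2 * R1 * (t i / B) := by
        have := mul_le_mul_of_nonneg_left h1 (show 0 ≤ 2 * R1 by linarith)
        linarith
      have h4 : 2 * R1 * (t i / B) + 4 * (2 * Dv * (t i / B)) = (2 * R1 + 8 * Dv) * t i / B := by
        ring
      have h5 : (2 * R1 + 8 * Dv) * t i / B ≤ t i * σ := by
        rw [div_le_iff₀ hB0]
        have := mul_le_mul_of_nonneg_right hBσ (ht0 i).le
        linarith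
      linarith)
  refine ⟨M1 * B ^ h, c, hc, N₀, fun N hN => (hN₀ N hN).trans (Nat.cast_le.2 (card_le_card ?_))⟩
  intro l hl
  rw [mem_filter] at hl ⊢
  refine ⟨hl.1, ?_⟩
  obtain ⟨j, hj, hlook⟩ := hl.2
  have hlog : 0 ≤ Real.log (P l) := by
    apply Real.log_nonneg
    exact_mod_cast (Nat.prime_nth_prime l).one_lt.le
  have hpow : 1 ≤ B ^ h / B ^ j := by
    rw [le_div_iff₀ (pow_pos hB0 j), one_mul]
    exact pow_le_pow_right₀ (by linarith) hj.le
  have hpow' : B ^ h / B ^ j ≤ B ^ h := by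
    apply div_le_self (pow_pos hB0 h).le
    exact one_le_pow₀ (by linarith)
  refine ⟨t j * Real.log (P l), ?_, ?_, ?_⟩
  · apply mul_le_mul_of_nonneg_right _ hlog
    simp only [ht]
    rw [mul_div_assoc]
    calc M ≤ M1 * 1 := by linarith
      _ ≤ _ := mul_le_mul_of_nonneg_left hpow hM1.le
  · apply mul_le_mul_of_nonneg_right _ hlog
    simp only [ht]
    rw [mul_div_assoc]
    exact mul_le_mul_of_nonneg_left hpow' hM1.le
  · refine looksF_of hv hv1 hv2 hv0 le_rfl ?_ (looks_scale hlook)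
    exact mul_le_mul_of_nonneg_right hRR1 (mul_nonneg (ht0 j).le hlog)

end Pool.Agent.TH29.GQ
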