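import Mathlib

set_option autoImplicit false

/-!
# A node all of whose children are hit
-/

namespace Pool.Agent.TH29.GQ

open Finset

/-- A set of more than `(b - 1) ^ h` words of length `h` over `b` letters has a node all of whose
children are hit. -/
theorem full_node (b : ℕ) : ∀ (h : ℕ) (S : Finset (Fin h → Fin b)), (b - 1) ^ h < S.card →
    ∃ (j : Fin h) (u : Fin h → Fin b), ∀ a : Fin b, ∃ w ∈ S, (∀ i, i < j → w i = u i) ∧ w j = a := by
  intro h
  induction h with
  | zero =>
    intro S hS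
    rw [pow_zero] at hS
    exact absurd (card_le_one.2 fun x _ y _ => Subsingleton.elim x y) (not_le.2 hS)
  | succ h ih =>
    intro S hS
    by_cases hall : ∀ a : Fin b, ∃ w ∈ S, w 0 = a
    · rcases Nat.eq_zero_or_pos b with hb | hb
      · subst hb
        obtain ⟨w, -⟩ : S.Nonempty := card_pos.1 (by omega)
        exact (w 0).elim0
      · refine ⟨0, fun _ => ⟨0, hb⟩, fun a => ?_⟩
        obtain ⟨w, hw, hwa⟩ := hall a
        exact ⟨w, hw, fun i hi => absurd hi (Fin.not_lt_zero i), hwa⟩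
    · push Not at hall
      obtain ⟨a0, ha0⟩ := hall
      -- some first letter has a large fibre
      have hmaps : ∀ w ∈ S, w 0 ∈ (univ : Finset (Fin b)).erase a0 := fun w hw =>
        mem_erase.2 ⟨ha0 w hw, mem_univ _⟩
      have hlt : ((univ : Finset (Fin b)).erase a0).card * (b - 1) ^ h < S.card := by
        rw [card_erase_of_mem (mem_univ _), card_univ, Fintype.card_fin]
        rw [pow_succ, mul_comm] at hS
        exact hS
      obtain ⟨a, -, ha⟩ := exists_lt_card_fiber_of_mul_lt_card_of_maps_to hmaps hlt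
      set S' : Finset (Fin h → Fin b) := (S.filter (fun w => w 0 = a)).image Fin.tail with hS'
      have hcard : S'.card = (S.filter (fun w => w 0 = a)).card := by
        apply card_image_of_injOn
        intro w hw w' hw' heq
        have h1 := (mem_filter.1 (mem_coe.1 hw)).2
        have h2 := (mem_filter.1 (mem_coe.1 hw')).2
        rw [← Fin.cons_self_tail w, ← Fin.cons_self_tail w', h1, h2, heq]
      obtain ⟨j, u, hju⟩ := ih S' (by rw [hcard]; exact ha)
      refine ⟨j.succ, Fin.cons a u, fun c => ?_⟩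
      obtain ⟨w, hw, hw1, hw2⟩ := hju c
      obtain ⟨v, hv, rfl⟩ := mem_image.1 hw
      obtain ⟨hvS, hv0⟩ := mem_filter.1 hv
      refine ⟨v, hvS, ?_, hw2⟩
      intro i hi
      refine Fin.cases (motive := fun i => i < j.succ → v i = (Fin.cons a u : Fin (h + 1) → Fin b) i)
        (fun _ => by rw [Fin.cons_zero]; exact hv0) (fun i hi => ?_) i hi
      rw [Fin.cons_succ]
      exact hw1 i (Fin.succ_lt_succ_iff.1 hi)

/-- the number of levels -/
theorem exists_levels (b : ℕ) (hb : 0 < b) : ∃ h : ℕ, 0 < h ∧ 4 * (b - 1) ^ h < b ^ h := by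
  have hb' : (0 : ℝ) < b := by exact_mod_cast hb
  have h1 : ((b - 1 : ℕ) : ℝ) / b < 1 := by
    rw [div_lt_one hb']
    exact_mod_cast Nat.sub_lt hb one_pos
  have h0 : (0 : ℝ) ≤ ((b - 1 : ℕ) : ℝ) / b := by positivity
  obtain ⟨h, hh⟩ := exists_pow_lt_of_lt_one (show (0 : ℝ) < 1 / 4 by norm_num) h1
  refine ⟨h + 1, Nat.succ_pos h, ?_⟩
  have h2 : (((b - 1 : ℕ) : ℝ) / b) ^ (h + 1) < 1 / 4 := by
    rw [pow_succ]
    calc (((b - 1 : ℕ) : ℝ) / b) ^ h * (((b - 1 : ℕ) : ℝ) / b) ≤
        (((b - 1 : ℕ) : ℝ) / b) ^ h * 1 :=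
          mul_le_mul_of_nonneg_left h1.le (pow_nonneg h0 _)
      _ < 1 / 4 := by rw [mul_one]; exact hh
  rw [div_pow, div_lt_iff₀ (by positivity)] at h2
  have h3 : (4 : ℝ) * ((b - 1 : ℕ) : ℝ) ^ (h + 1) < (b : ℝ) ^ (h + 1) := by linarith
  exact_mod_cast h3

end Pool.Agent.TH29.GQ
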