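import Pool.Agent.H361R2.PP.Iface4
import Pool.Agent.TH29.GQ.Words

/-! Shapes of the primes near a prime for a positive proportion of the primes. -/

set_option autoImplicit false

open Finset

namespace Pool.Agent.TH29.GQ

open Pool.Agent.H361R2.PP

/-- At the scale `H` the primes seen from `q` look like the points `V a`: every prime `q'` with
`|q' - q| ≤ R H` is within `ε H` of some `q + V a H`, with `a ≠ a0` if `q' > q`, and at least `m`
primes are within `ε H` of each `q + V a H`. -/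
def Looks {b : ℕ} (m : ℕ) (R ε : ℝ) (V : Fin b → ℝ) (a0 : Fin b) (H : ℝ) (q : ℕ) : Prop :=
  (∀ q' : ℕ, q'.Prime → |(q' : ℝ) - q| ≤ R * H →
    ∃ a, (q < q' → a ≠ a0) ∧ |(q' : ℝ) - q - V a * H| ≤ ε * H) ∧
  ∀ a, m ≤ {q' : ℕ | q'.Prime ∧ |(q' : ℝ) - q - V a * H| ≤ ε * H}.ncard

/-- one of the shapes `V j`, `j < h`, is seen from `q` at the scale `log q` -/
def Seen {b : ℕ} (h m : ℕ) (R ε : ℕ → ℝ) (V : ℕ → Fin b → ℝ) (a0 : Fin b) (q : ℕ) : Prop :=
  ∃ j < h, Looks m (R j) (ε j) (V j) a0 (Real.log q) q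

/-- the position of a word -/
noncomputable def pos {b : ℕ} (V : ℕ → Fin b → ℝ) {h : ℕ} (w : Fin h → Fin b) : ℝ :=
  ∑ i : Fin h, V i (w i)

theorem sum_tail (D τ : ℕ → ℝ) (hτ : ∀ j, D (j + 1) + τ (j + 1) ≤ τ j) (j : ℕ) :
    ∀ n : ℕ, ∑ i ∈ range (j + 1 + n), (if j < i then 2 * D i else 0) ≤ 2 * (τ j - τ (j + n)) := by
  intro n
  induction n with
  | zero =>
    show ∑ i ∈ range (j + 1), (if j < i then 2 * D i else 0) ≤ 2 * (τ j - τ j)
    rw [sub_self, mul_zero]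
    apply le_of_eq
    apply sum_eq_zero
    intro i hi
    rw [mem_range] at hi
    rw [if_neg (by omega)]
  | succ n ih =>
    rw [← Nat.add_assoc, sum_range_succ, if_pos (by omega)]
    have h1 := hτ (j + n)
    have h2 : j + 1 + n = j + n + 1 := by omega
    rw [h2] at ih ⊢
    rw [← Nat.add_assoc]
    linarith

theorem pos_diff {b : ℕ} (V : ℕ → Fin b → ℝ) (D τ : ℕ → ℝ) (hD : ∀ j a, |V j a| ≤ D j)
    (hτ : ∀ j, D (j + 1) + τ (j + 1) ≤ τ j) (hτ0 : ∀ j, 0 ≤ τ j) {h : ℕ} (w w' : Fin h → Fin b)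
    (j : Fin h) (hww : ∀ i, i < j → w i = w' i) :
    |pos V w' - pos V w - (V j (w' j) - V j (w j))| ≤ 2 * τ j := by
  unfold pos
  rw [← sum_sub_distrib, ← add_sum_erase _ _ (mem_univ j), add_sub_cancel_left]
  refine (abs_sum_le_sum_abs _ _).trans ?_
  have h1 : ∑ i ∈ univ.erase j, |V i (w' i) - V i (w i)| ≤
      ∑ i ∈ univ.erase j, (if (j : ℕ) < i then 2 * D i else 0) := by
    refine sum_le_sum fun i hi => ?_
    rw [mem_erase] at hi
    split_ifs with h2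
    · have h3 := abs_le.1 (hD i (w' i))
      have h4 := abs_le.1 (hD i (w i))
      rw [abs_le]
      constructor <;> linarith
    · have h3 : i < j := lt_of_le_of_ne (by rw [Fin.le_def]; omega) hi.1
      rw [hww i h3, sub_self, abs_zero]
  refine h1.trans ?_
  have h2 : ∑ i ∈ univ.erase j, (if (j : ℕ) < i then 2 * D i else 0) =
      ∑ i : Fin h, (if (j : ℕ) < i then 2 * D i else 0) := by
    rw [← add_sum_erase univ _ (mem_univ j), if_neg (lt_irrefl _), zero_add]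
  rw [h2, Fin.sum_univ_eq_sum_range (fun i => if (j : ℕ) < i then 2 * D i else 0) h]
  obtain ⟨n, hn⟩ : ∃ n, h = j + 1 + n := ⟨h - (j + 1), by omega⟩
  have h3 := sum_tail D τ hτ j n
  rw [← hn] at h3
  have h4 := hτ0 (j + n)
  linarith

theorem pos_bound {b : ℕ} (V : ℕ → Fin b → ℝ) (D τ : ℕ → ℝ) (hD : ∀ j a, |V j a| ≤ D j)
    (hτ : ∀ j, D (j + 1) + τ (j + 1) ≤ τ j) (hτ0 : ∀ j, 0 ≤ τ j) (hD0 : ∀ j, 0 ≤ D j) {h : ℕ}
    (w : Fin h → Fin b) : |pos V w| ≤ D 0 + τ 0 := by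
  unfold pos
  refine (abs_sum_le_sum_abs _ _).trans ?_
  have h1 : ∑ i : Fin h, |V i (w i)| ≤ ∑ i : Fin h, D i := sum_le_sum fun i _ => hD i (w i)
  refine h1.trans ?_
  rw [Fin.sum_univ_eq_sum_range D h]
  have h2 : ∀ n, ∑ i ∈ range (n + 1), D i ≤ D 0 + τ 0 - τ n := by
    intro n
    induction n with
    | zero => simp
    | succ n ih =>
      rw [sum_range_succ]
      have := hτ n
      linarith
  rcases Nat.eq_zero_or_pos h with h0 | h0
  · rw [h0, range_zero, sum_empty]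
    linarith [hD0 0, hτ0 0]
  · obtain ⟨n, hn⟩ : ∃ n, h = n + 1 := ⟨h - 1, by omega⟩
    rw [hn]
    linarith [h2 n, hτ0 n]

theorem exists_small (f : ℕ → ℝ) (hf : ∀ j, 0 < f j) :
    ∀ h : ℕ, ∃ δ : ℝ, 0 < δ ∧ ∀ j < h, δ ≤ f j := by
  intro h
  induction h with
  | zero => exact ⟨1, one_pos, fun j hj => absurd hj (Nat.not_lt_zero j)⟩
  | succ h ih =>
    obtain ⟨δ, h0, h1⟩ := ih
    refine ⟨min δ (f h), lt_min h0 (hf h), fun j hj => ?_⟩
    rcases Nat.lt_succ_iff_lt_or_eq.1 hj with h2 | h2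
    · exact (min_le_left _ _).trans (h1 j h2)
    · rw [h2]
      exact min_le_right _ _

theorem ev_log (L₀ : ℝ) : ∃ X₁ : ℕ, ∀ X : ℕ, X₁ ≤ X → L₀ ≤ Real.log X := by
  have h := (Real.tendsto_log_atTop.comp (tendsto_natCast_atTop_atTop (R := ℝ))).eventually
    (Filter.eventually_ge_atTop L₀)
  obtain ⟨X₁, h1⟩ := Filter.eventually_atTop.1 h
  exact ⟨X₁, fun X hX => h1 X hX⟩

theorem ev_lin (Λ : ℝ) (hΛ : 0 < Λ) : ∃ X₁ : ℕ, ∀ X : ℕ, X₁ ≤ X → Λ * Real.log X ≤ X := by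
  have h := (Real.isLittleO_log_id_atTop).def (show (0 : ℝ) < 1 / Λ by positivity)
  obtain ⟨X₁, h1⟩ := Filter.eventually_atTop.1 (tendsto_natCast_atTop_atTop (R := ℝ) |>.eventually h)
  refine ⟨X₁ + 1, fun X hX => ?_⟩
  have h2 := h1 X (by omega)
  have hX1 : (1 : ℝ) ≤ X := by exact_mod_cast (show 1 ≤ X by omega)
  simp only [id, Real.norm_eq_abs] at h2
  rw [abs_of_nonneg (Real.log_nonneg hX1), abs_of_nonneg (by linarith), one_div,
    inv_mul_eq_div, le_div_iff₀ hΛ] at h2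
  linarith

/-- the logarithms of the numbers between `X` and `3 X` -/
theorem log_near {X q : ℕ} (hX : 1 ≤ X) (h1 : X ≤ q) (h2 : (q : ℝ) ≤ 3 * X) :
    Real.log X ≤ Real.log q ∧ Real.log q ≤ Real.log X + 2 := by
  have hX0 : (0 : ℝ) < X := by exact_mod_cast hX
  have hq : (X : ℝ) ≤ q := by exact_mod_cast h1
  refine ⟨Real.log_le_log hX0 hq, ?_⟩
  have h3 := Real.log_le_log (by linarith) h2
  rw [Real.log_mul (by norm_num) hX0.ne'] at h3
  have h4 : Real.log 3 ≤ 2 := by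
    have := Real.log_le_sub_one_of_pos (show (0 : ℝ) < 3 by norm_num)
    linarith
  linarith

open Classical in
/-- the shapes `V j` at the levels `j < h` of a tree of places -/
theorem looks_of (hM : MasterT) (hTra : Tra) {b h : ℕ} (m : ℕ)
    (hh : 4 * (b - 1) ^ h < b ^ h) (V : ℕ → Fin b → ℝ) (a0 : Fin b) (hV0 : ∀ j, V j a0 = 0)
    (D τ ε R : ℕ → ℝ) (hD : ∀ j a, |V j a| ≤ D j) (hτ : ∀ j, D (j + 1) + τ (j + 1) ≤ τ j)
    (hτ0 : ∀ j, 0 ≤ τ j) (hε : ∀ j, 0 < ε j) (hR : ∀ j, 0 < R j) (hc1 : ∀ j, 8 * τ j ≤ ε j)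
    (hc2 : ∀ i j, i < j → ∀ a a', a ≠ a' → 2 * R j + 4 * τ i ≤ |V i a - V i a'|) :
    ∃ c : ℝ, 0 < c ∧ ∃ N₀ : ℕ, ∀ N : ℕ, N₀ ≤ N → c * N ≤ (((range N).filter (fun l =>
      Seen h m R ε V a0 (P l))).card : ℝ) := by
  have hD0 : ∀ j, 0 ≤ D j := fun j => (abs_nonneg _).trans (hD j a0)
  obtain ⟨ε0, hε0, hε0'⟩ := exists_small (fun j => min (min (ε j / 8) (R j / 2)) 1)
    (fun j => lt_min (lt_min (by linarith [hε j]) (by linarith [hR j])) one_pos) (h + 1)
  have hε1 : ε0 ≤ 1 := (hε0' 0 (by omega)).trans (min_le_right _ _)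
  have hεε : ∀ j < h, ε0 ≤ ε j / 8 := fun j hj =>
    (hε0' j (by omega)).trans ((min_le_left _ _).trans (min_le_left _ _))
  have hεR : ∀ j < h, ε0 ≤ R j / 2 := fun j hj =>
    (hε0' j (by omega)).trans ((min_le_left _ _).trans (min_le_right _ _))
  obtain ⟨ρ, hρd⟩ : ∃ ρ : ℝ, ρ = ∑ j ∈ range h, R j := ⟨_, rfl⟩
  have hρ : ∀ j < h, R j ≤ ρ := fun j hj => by
    rw [hρd]
    exact single_le_sum (f := R) (fun i _ => (hR i).le) (mem_range.2 hj)
  have hρ0 : 0 ≤ ρ := by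
    rw [hρd]
    exact sum_nonneg fun i _ => (hR i).le
  obtain ⟨s, hs⟩ : ∃ s : ℝ, s = D 0 + τ 0 + 2 * ρ + 1 := ⟨_, rfl⟩
  have hD00 := hD0 0
  have hτ00 := hτ0 0
  have hs0 : 0 < s := by linarith
  obtain ⟨Λ, hΛ⟩ : ∃ Λ : ℝ, Λ = 2 * s + 1 := ⟨_, rfl⟩
  have hΛ0 : 0 < Λ := by linarith
  obtain ⟨T, hTd⟩ : ∃ T : ℕ, T = b ^ h := ⟨_, rfl⟩
  have hcardT : Fintype.card (Fin h → Fin b) = T := by
    rw [Fintype.card_fun, Fintype.card_fin, Fintype.card_fin, hTd]
  obtain ⟨e, -⟩ : ∃ e : (Fin h → Fin b) ≃ Fin T, True := ⟨Fintype.equivFinOfCardEq hcardT, trivial⟩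
  set α : Fin T → ℝ := fun i => s + pos V (e.symm i) with hα
  have hpb : ∀ w : Fin h → Fin b, |pos V w| ≤ D 0 + τ 0 := fun w =>
    pos_bound V D τ hD hτ hτ0 hD0 w
  obtain ⟨c1, hc1', X0, hX0⟩ := hM T (m + 1) α ε0 Λ hε0 hΛ0 (by
    intro i
    have h1 := abs_le.1 (hpb (e.symm i))
    simp only [hα]
    constructor <;> linarith)
  obtain ⟨c', hc', htra⟩ := hTra c1 Λ hc1' hΛ0
  obtain ⟨X₁, hX₁⟩ := ev_lin Λ hΛ0
  obtain ⟨ω, hωd⟩ : ∃ ω : ℝ, ω = ∑ j ∈ range h, 4 * D j / ε j := ⟨_, rfl⟩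
  have hω : ∀ j < h, 4 * D j / ε j ≤ ω := fun j hj => by
    rw [hωd]
    exact single_le_sum (f := fun j => 4 * D j / ε j)
      (fun i _ => div_nonneg (mul_nonneg (by norm_num) (hD0 i)) (hε i).le) (mem_range.2 hj)
  have hω0 : 0 ≤ ω := by
    rw [hωd]
    exact sum_nonneg fun i _ => div_nonneg (mul_nonneg (by norm_num) (hD0 i)) (hε i).le
  obtain ⟨X₂, hX₂⟩ := ev_log (ω + 5)
  obtain ⟨N₀, hN₀⟩ := htra (X0 + X₁ + X₂ + 3)
  refine ⟨c', hc', N₀, fun N hN => ?_⟩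
  obtain ⟨X, hXX, hRR⟩ := hN₀ N hN
  have hX3 : 3 ≤ X := by omega
  have hX3r : (3 : ℝ) ≤ X := by exact_mod_cast hX3
  have hlin := hX₁ X (by omega)
  have hL5 := hX₂ X (by omega)
  have hres := hRR (fun p => Seen h m R ε V a0 p) ?_
  · exact hres
  refine (hX0 X (by omega)).trans (Nat.cast_le.2 (card_le_card ?_))
  intro n hn
  rw [mem_filter] at hn ⊢
  refine ⟨hn.1, ?_⟩
  obtain ⟨hnX, hg1, hg2⟩ := hn
  rw [mem_Ico] at hnX
  set L := Real.log X with hLd
  have hL0 : 0 < L := by linarith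
  set N1 := ⌊Λ * L⌋₊ with hN1
  have hN1r : (N1 : ℝ) ≤ Λ * L := Nat.floor_le (by positivity)
  -- the hit words
  set S0 : Finset (Fin T) := (univ : Finset (Fin T)).filter (fun i => m + 1 ≤
      ((Icc 1 N1).filter (fun a => CL (α i) ε0 L a ∧ (n + a).Prime)).card) with hS0
  set S : Finset (Fin h → Fin b) := S0.image e.symm with hS
  have hScard : S.card = S0.card := card_image_of_injective _ e.symm.injective
  have hSbig : (b - 1) ^ h < S.card := by
    rw [hScard]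
    have h1 : b ^ h ≤ 4 * S0.card := by
      rw [← hTd]
      exact hg1
    omega
  obtain ⟨j, u, hju⟩ := full_node b h S hSbig
  choose wd hwS hwu hwa using hju
  -- the hits of a word of S
  have hhit : ∀ w ∈ S, m + 1 ≤ ((Icc 1 N1).filter (fun a => CL (s + pos V w) ε0 L a ∧
      (n + a).Prime)).card := by
    intro w hw
    obtain ⟨i, hi, rfl⟩ := mem_image.1 hw
    exact (mem_filter.1 hi).2
  -- the last prime of the cluster
  set Cl : Finset ℕ := (Icc 1 N1).filter (fun a => (n + a).Prime ∧ ∃ w : Fin h → Fin b,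
    (∀ i, i < j → w i = u i) ∧ w j = a0 ∧ CL (s + pos V w) ε0 L a) with hCl
  have hClne : Cl.Nonempty := by
    obtain ⟨a, ha⟩ : ∃ a, a ∈ (Icc 1 N1).filter (fun a => CL (s + pos V (wd a0)) ε0 L a ∧
        (n + a).Prime) := card_pos.1 (lt_of_lt_of_le (Nat.succ_pos m) (hhit _ (hwS a0)))
    rw [mem_filter] at ha
    exact ⟨a, mem_filter.2 ⟨ha.1, ha.2.2, wd a0, hwu a0, hwa a0, ha.2.1⟩⟩
  obtain ⟨a, haCl, hamax⟩ : ∃ a ∈ Cl, ∀ a' ∈ Cl, a' ≤ a :=
    ⟨Cl.max' hClne, max'_mem _ _, fun a' ha' => le_max' _ _ ha'⟩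
  rw [hCl, mem_filter] at haCl
  obtain ⟨haI, hap, w0, hw0u, hw0a, haC⟩ := haCl
  rw [mem_Icc] at haI
  refine ⟨a, mem_Icc.2 haI, hap, j, j.2, ?_⟩
  have haX : (a : ℝ) ≤ X := by
    have h1 : (a : ℝ) ≤ N1 := by exact_mod_cast haI.2
    linarith
  have hqX : ((n + a : ℕ) : ℝ) ≤ 3 * X := by
    have h1 : (n : ℝ) ≤ 2 * X := by exact_mod_cast hnX.2.le
    push_cast
    linarith
  obtain ⟨hl1, hl2⟩ := log_near (show 1 ≤ X by omega) (show X ≤ n + a by omega) hqX
  set L' := Real.log ((n + a : ℕ) : ℝ) with hL'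
  rw [← hLd] at hl1 hl2
  have hεj := hε j
  have hRj := hR j
  have hDj := hD0 j
  have hτj := hτ0 j
  have e1 := hεε j j.2
  have e2 := hεR j j.2
  have e3 := hρ j j.2
  have e4 : 4 * D j ≤ ε j * L := by
    have h1 := hω j j.2
    rw [div_le_iff₀ hεj] at h1
    nlinarith
  have e5 := hc1 j
  have hp0 := abs_le.1 (hpb (w0))
  unfold CL at haC
  -- closeness of two places at the level `j`
  have hclose : ∀ (w' : Fin h → Fin b) (a' : ℕ), (∀ i, i < j → w0 i = w' i) →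
      CL (s + pos V w') ε0 L a' →
      |((n + a' : ℕ) : ℝ) - ((n + a : ℕ) : ℝ) - V j (w' j) * L'| ≤ ε j * L' := by
    intro w' a' hag hC'
    unfold CL at hC'
    have h1 := abs_le.1 (pos_diff V D τ hD hτ hτ0 (w0) w' j hag)
    rw [hw0a, hV0 j, sub_zero] at h1
    have h2 := abs_le.1 (hD j (w' j))
    obtain ⟨x, hx⟩ : ∃ x : ℝ, x = V j (w' j) := ⟨_, rfl⟩
    obtain ⟨y, hy⟩ : ∃ y : ℝ, y = pos V w' - pos V (w0) := ⟨_, rfl⟩
    rw [← hx] at h1 h2 ⊢
    rw [← hy] at h1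
    have h3 : (a' : ℝ) - a ≤ y * L + ε0 * L := by
      have : (s + pos V w' + ε0) * L - (s + pos V (w0)) * L = y * L + ε0 * L := by
        rw [hy]; ring
      linarith [hC'.2, haC.1]
    have h4 : y * L - ε0 * L ≤ (a' : ℝ) - a := by
      have : (s + pos V w') * L - (s + pos V (w0) + ε0) * L = y * L - ε0 * L := by
        rw [hy]; ring
      linarith [hC'.1, haC.2]
    have h5 : (y - x) * L ≤ 2 * τ j * L := mul_le_mul_of_nonneg_right h1.2 hL0.le
    have h6 : -(2 * τ j) * L ≤ (y - x) * L := mul_le_mul_of_nonneg_right h1.1 hL0.le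
    have h7 : ε0 * L ≤ ε j / 8 * L := mul_le_mul_of_nonneg_right e1 hL0.le
    have h8 : 8 * τ j * L ≤ ε j * L := mul_le_mul_of_nonneg_right e5 hL0.le
    have h9 : |x * (L' - L)| ≤ 2 * D j := by
      rw [abs_mul, abs_of_nonneg (show 0 ≤ L' - L by linarith)]
      calc |x| * (L' - L) ≤ D j * 2 :=
            mul_le_mul (abs_le.2 h2) (by linarith) (by linarith) hDj
        _ = 2 * D j := by ring
    have h9' := abs_le.1 h9
    have h10 : ε j * L ≤ ε j * L' := mul_le_mul_of_nonneg_left hl1 hεj.le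
    have h11 : x * (L' - L) = x * L' - x * L := by ring
    rw [h11] at h9'
    push_cast
    rw [abs_le]
    constructor
    · nlinarith [h9'.1, h9'.2]
    · nlinarith [h9'.1, h9'.2]
  refine ⟨?_, ?_⟩
  · intro q' hq' hqq
    rw [abs_le] at hqq
    have hq0 : ((n + a : ℕ) : ℝ) = (n : ℝ) + a := by push_cast; ring
    rw [hq0] at hqq
    have hRL : R j * L' ≤ R j * L + 2 * R j := by
      have : R j * L' ≤ R j * (L + 2) := mul_le_mul_of_nonneg_left (by linarith) hRj.le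
      linarith
    have hRL2 : 2 * R j ≤ R j * L := by
      have : R j * 2 ≤ R j * L := mul_le_mul_of_nonneg_left (by linarith) hRj.le
      linarith
    have hlow : (n : ℝ) < q' := by
      have h1 : (2 * R j + 1) * L ≤ (s + pos V (w0)) * L := by
        apply mul_le_mul_of_nonneg_right _ hL0.le
        linarith
      have h2 : (2 * R j + 1) * L = 2 * (R j * L) + L := by ring
      linarith [haC.1]
    have hup : (q' : ℝ) ≤ n + Λ * L := by
      have h1 : (s + pos V (w0) + ε0) * L ≤ (Λ - 2 * R j) * L := by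
        apply mul_le_mul_of_nonneg_right _ hL0.le
        linarith
      have h2 : (Λ - 2 * R j) * L = Λ * L - 2 * (R j * L) := by ring
      linarith [haC.2]
    have hlow' : n < q' := by exact_mod_cast hlow
    obtain ⟨a', rfl⟩ : ∃ a', q' = n + a' := ⟨q' - n, by omega⟩
    have ha'N : a' ≤ N1 := by
      apply Nat.le_floor
      push_cast at hup
      linarith
    obtain ⟨i', hi'⟩ := hg2 a' (mem_Icc.2 ⟨by omega, ha'N⟩) hq'
    set w' := e.symm i' with hw'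
    have hC' : CL (s + pos V w') ε0 L a' := hi'
    have hag : ∀ i, i < j → w0 i = w' i := by
      by_contra hcon
      push Not at hcon
      obtain ⟨i0, hi0j, hi0⟩ := hcon
      have hex : ∃ k : ℕ, ∃ hk : k < h, w0 ⟨k, hk⟩ ≠ w' ⟨k, hk⟩ := ⟨i0, i0.2, hi0⟩
      obtain ⟨hkh, hkne⟩ := Nat.find_spec hex
      have hkmin : ∀ k, k < Nat.find hex → ¬ ∃ hk : k < h, w0 ⟨k, hk⟩ ≠ w' ⟨k, hk⟩ :=
        fun k hk => Nat.find_min hex hk
      have hkj : Nat.find hex < j := by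
        have : Nat.find hex ≤ i0 := Nat.find_min' hex ⟨i0.2, hi0⟩
        have h1 : (i0 : ℕ) < j := hi0j
        omega
      set k0 := Nat.find hex with hk0
      have h1 := abs_le.1 (pos_diff V D τ hD hτ hτ0 (w0) w' ⟨k0, hkh⟩ (fun i hi => by
        by_contra hne
        exact hkmin i hi ⟨i.2, hne⟩))
      have h2 := hc2 k0 j hkj (w' ⟨k0, hkh⟩) (w0 ⟨k0, hkh⟩) (Ne.symm hkne)
      obtain ⟨x, hx⟩ : ∃ x : ℝ, x = V k0 (w' ⟨k0, hkh⟩) - V k0 (w0 ⟨k0, hkh⟩) := ⟨_, rfl⟩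
      obtain ⟨y, hy⟩ : ∃ y : ℝ, y = pos V w' - pos V (w0) := ⟨_, rfl⟩
      have h1' : -(2 * τ k0) ≤ y - x ∧ y - x ≤ 2 * τ k0 := by
        rw [hx, hy]
        exact h1
      rw [← hx] at h2
      have hτk := hτ0 k0
      unfold CL at hC'
      have h3 : (a' : ℝ) - a ≤ y * L + ε0 * L := by
        have : (s + pos V w' + ε0) * L - (s + pos V (w0)) * L = y * L + ε0 * L := by
          rw [hy]; ring
        linarith [hC'.2, haC.1]
      have h4 : y * L - ε0 * L ≤ (a' : ℝ) - a := by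
        have : (s + pos V w') * L - (s + pos V (w0) + ε0) * L = y * L - ε0 * L := by
          rw [hy]; ring
        linarith [hC'.1, haC.2]
      have h5 : ε0 * L ≤ R j / 2 * L := mul_le_mul_of_nonneg_right e2 hL0.le
      have h6 : R j * 5 ≤ R j * L := mul_le_mul_of_nonneg_left (by linarith) hRj.le
      have h7 : ((n + a' : ℕ) : ℝ) = (n : ℝ) + a' := by push_cast; ring
      rw [h7] at hqq
      rcases le_total 0 x with hx0 | hx0
      · rw [abs_of_nonneg hx0] at h2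
        have h8 : 2 * R j * L ≤ y * L := mul_le_mul_of_nonneg_right (by linarith) hL0.le
        linarith [hqq.2]
      · rw [abs_of_nonpos hx0] at h2
        have h8 : y * L ≤ -(2 * R j) * L := mul_le_mul_of_nonneg_right (by linarith) hL0.le
        linarith [hqq.1]
    refine ⟨w' j, fun hlt hw'a => ?_, hclose w' a' hag hC'⟩
    have h1 := hamax a' (mem_filter.2 ⟨mem_Icc.2 ⟨by omega, ha'N⟩, hq', w',
      fun i hi => (hag i hi).symm.trans (hw0u i hi), hw'a, hC'⟩)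
    omega
  · intro v
    have hag : ∀ i, i < j → w0 i = wd v i := fun i hi => (hw0u i hi).trans (hwu v i hi).symm
    have h1 := hhit _ (hwS v)
    set F : Finset ℕ := (Icc 1 N1).filter (fun a => CL (s + pos V (wd v)) ε0 L a ∧ (n + a).Prime)
      with hF
    have h2 : (F.image (fun a' => n + a')).card = F.card :=
      card_image_of_injective _ (fun x y hxy => by simpa using hxy)
    have h3 : m ≤ (F.image (fun a' => n + a')).card := by omega
    refine h3.trans ?_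
    rw [← Set.ncard_coe_finset]
    refine Set.ncard_le_ncard ?_ ?_
    · intro q' hq'
      rw [mem_coe, mem_image] at hq'
      obtain ⟨a', ha', rfl⟩ := hq'
      rw [hF, mem_filter] at ha'
      refine ⟨ha'.2.2, ?_⟩
      have h4 := hclose (wd v) a' hag ha'.2.1
      rw [hwa v] at h4
      exact h4
    · refine (Set.finite_Iic ⌊((n + a : ℕ) : ℝ) + V j v * L' + ε j * L'⌋₊).subset ?_
      intro q' hq'
      rw [Set.mem_Iic]
      apply Nat.le_floor
      have := (abs_le.1 hq'.2).2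
      linarith

end Pool.Agent.TH29.GQ
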